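import Pool.Agent.Q189.Medial

/-!
# Points of the convex hull at distance more than `lam` are `lam`-reconstructible

The definitions are in `Pool.Agent.Q189.MedialDefs`.
-/

set_option autoImplicit false

open Metric

namespace Pool.Agent.Results.MP_15b8d6_gt.ReconstructibleHull

open Q189.Medial

theorem result (n : ℕ) (X : Set (EuclideanSpace ℝ (Fin n))) (hX : IsClosed X)
    (hne : X.Nonempty) (lam : ℝ) (hlam : 0 ≤ lam) (p : EuclideanSpace ℝ (Fin n))
    (hp : p ∈ convexHull ℝ X) (hd : lam < infDist p X) :
    Reconstructible X lam p :=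
  main hX hne hlam hp hd

end Pool.Agent.Results.MP_15b8d6_gt.ReconstructibleHull
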